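import Pool.Agent.Helper70.RT.Sheet

set_option autoImplicit false

namespace Pool.Helper70.RT

open Polynomial

/-! ### rational polynomials -/

noncomputable def S29.F (U V : ℚ) : ℚ[X] :=
  C 48 * X ^ 3 + C (96 * g0 U V + 4 * e2 U V ^ 2) * X ^ 2 +
  C (48 * h0 U V + 6 * h3 U V * e3 U V + 4 * e2 U V * h2 U V) * X +
  C (-3 * h3 U V * h1 U V + h2 U V ^ 2)

noncomputable def S29.G (U V : ℚ) : ℚ[X] :=
  C (576 * e2 U V) * X ^ 4 +
  C (288 * h2 U V + 1152 * e2 U V * g0 U V - 432 * e3 U V ^ 2 - 16 * e2 U V ^ 3) * X ^ 3 +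
  C (288 * (2 * g0 U V * h2 U V + 2 * e2 U V * h0 U V) - 36 * h3 U V * e2 U V * e3 U V +
    432 * e3 U V * h1 U V - 27 * h3 U V ^ 2 - 24 * e2 U V ^ 2 * h2 U V) * X ^ 2 +
  C (288 * h2 U V * h0 U V + 9 * h3 U V * (2 * e2 U V * h1 U V - 2 * e3 U V * h2 U V) -
    108 * h1 U V ^ 2 - 54 * g0 U V * h3 U V ^ 2 - 12 * e2 U V * h2 U V ^ 2) * X +
  C (9 * h3 U V * h2 U V * h1 U V - 27 * h0 U V * h3 U V ^ 2 - 2 * h2 U V ^ 3)

theorem S29.eval_F (U V t : ℚ) : (S29.F U V).eval t = fI U V t := by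
  simp only [S29.F, eval_add, eval_mul, eval_C, eval_pow, eval_X, fI, q4, q0, q3, q1, q2]
  ring

theorem S29.eval_G (U V t : ℚ) : (S29.G U V).eval t = fJ U V t := by
  simp only [S29.G, eval_add, eval_mul, eval_C, eval_pow, eval_X, fJ, q4, q0, q3, q1, q2]
  ring

theorem S29.deg_F (U V : ℚ) : (S29.F U V).natDegree = 3 := natDegree_cubic (by norm_num)

theorem S29.lc_F (U V : ℚ) : (S29.F U V).leadingCoeff = 48 := leadingCoeff_cubic (by norm_num)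

theorem S29.deg4 (a b c d e : ℚ) (h : a ≠ 0) :
    (C a * X ^ 4 + C b * X ^ 3 + C c * X ^ 2 + C d * X + C e : ℚ[X]).natDegree = 4 := by
  compute_degree!

theorem S29.deg_G (U V : ℚ) (h : e2 U V ≠ 0) : (S29.G U V).natDegree = 4 :=
  S29.deg4 _ _ _ _ _ (mul_ne_zero (by norm_num) h)

theorem S29.cast_fI (U V t : ℤ) : ((fI U V t : ℤ) : ℚ) = fI (U : ℚ) (V : ℚ) (t : ℚ) := by
  have c1 : ((e2 U V : ℤ) : ℚ) = e2 (U : ℚ) (V : ℚ) := by simp [e2]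
  have c2 : ((e3 U V : ℤ) : ℚ) = e3 (U : ℚ) (V : ℚ) := by simp [e3]
  have c3 : ((g0 U V : ℤ) : ℚ) = g0 (U : ℚ) (V : ℚ) := by simp [g0]
  have c4 : ((h0 U V : ℤ) : ℚ) = h0 (U : ℚ) (V : ℚ) := by simp [h0]
  have c5 : ((h1 U V : ℤ) : ℚ) = h1 (U : ℚ) (V : ℚ) := by simp [h1]
  have c6 : ((h2 U V : ℤ) : ℚ) = h2 (U : ℚ) (V : ℚ) := by simp [h2]
  have c7 : ((h3 U V : ℤ) : ℚ) = h3 (U : ℚ) (V : ℚ) := by simp [h3]
  simp only [fI, q4, q0, q3, q1, q2, Int.cast_add, Int.cast_sub, Int.cast_mul, Int.cast_pow,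
    Int.cast_neg, Int.cast_ofNat, c1, c2, c3, c4, c5, c6, c7]

theorem S29.cast_fJ (U V t : ℤ) : ((fJ U V t : ℤ) : ℚ) = fJ (U : ℚ) (V : ℚ) (t : ℚ) := by
  have c1 : ((e2 U V : ℤ) : ℚ) = e2 (U : ℚ) (V : ℚ) := by simp [e2]
  have c2 : ((e3 U V : ℤ) : ℚ) = e3 (U : ℚ) (V : ℚ) := by simp [e3]
  have c3 : ((g0 U V : ℤ) : ℚ) = g0 (U : ℚ) (V : ℚ) := by simp [g0]
  have c4 : ((h0 U V : ℤ) : ℚ) = h0 (U : ℚ) (V : ℚ) := by simp [h0]
  have c5 : ((h1 U V : ℤ) : ℚ) = h1 (U : ℚ) (V : ℚ) := by simp [h1]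
  have c6 : ((h2 U V : ℤ) : ℚ) = h2 (U : ℚ) (V : ℚ) := by simp [h2]
  have c7 : ((h3 U V : ℤ) : ℚ) = h3 (U : ℚ) (V : ℚ) := by simp [h3]
  simp only [fJ, q4, q0, q3, q1, q2, Int.cast_add, Int.cast_sub, Int.cast_mul, Int.cast_pow,
    Int.cast_neg, Int.cast_ofNat, c1, c2, c3, c4, c5, c6, c7]

theorem S29.MM_pos : 0 < MM := by
  have h5 : MM = 1728 * (Nat.factorial QQ : ℤ) := by rw [MM]
  have h6 : (0 : ℤ) < (Nat.factorial QQ : ℤ) := Int.natCast_pos.2 (Nat.factorial_pos QQ)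
  rw [h5]
  exact mul_pos (by norm_num) h6

theorem S29.dvd_MM (n : ℕ) (h1 : 0 < n) (h2 : n ≤ 10000000) : (n : ℤ) ∣ MM := by
  have h3 : n ≤ QQ := by
    unfold QQ
    exact h2.trans (Nat.le_add_left _ _)
  have h4 : (n : ℤ) ∣ (Nat.factorial QQ : ℤ) :=
    Int.natCast_dvd_natCast.2 (Nat.dvd_factorial h1 h3)
  have h5 : MM = 1728 * (Nat.factorial QQ : ℤ) := by rw [MM]
  rw [h5]
  exact Dvd.dvd.mul_left h4 1728

attribute [local irreducible] QQ MM fI fJ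

theorem S29.w1 (T : ℕ × ℕ × ℕ) : (ww T).1 = 4 + MM * (T.1 : ℤ) := by simp only [ww]
theorem S29.w2 (T : ℕ × ℕ × ℕ) : (ww T).2.1 = -1 + MM * (T.2.1 : ℤ) := by simp only [ww]
theorem S29.w3 (T : ℕ × ℕ × ℕ) : (ww T).2.2 = 5 + MM * (T.2.2 : ℤ) := by simp only [ww]

theorem S29.cong (T : ℕ × ℕ × ℕ) : Cong (ww T) :=
  ⟨⟨(T.1 : ℤ), by rw [S29.w1]; ring⟩, ⟨(T.2.1 : ℤ), by rw [S29.w2]; ring⟩,
    ⟨(T.2.2 : ℤ), by rw [S29.w3]; ring⟩⟩

theorem S29.e2_ne (T : ℕ × ℕ × ℕ) : e2 (((ww T).1 : ℤ) : ℚ) (((ww T).2.1 : ℤ) : ℚ) ≠ 0 := by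
  have hU : (0 : ℤ) < (ww T).1 := by
    have h : 0 ≤ MM * (T.1 : ℤ) := mul_nonneg S29.MM_pos.le (Int.natCast_nonneg _)
    rw [S29.w1]
    linarith
  have hU' : (0 : ℚ) < (((ww T).1 : ℤ) : ℚ) := by exact_mod_cast hU
  apply ne_of_lt
  unfold e2
  set u : ℚ := (((ww T).1 : ℤ) : ℚ)
  set v : ℚ := (((ww T).2.1 : ℤ) : ℚ)
  nlinarith [sq_nonneg (u - v), sq_nonneg v, mul_pos hU' hU']

theorem S29.ww_inj {T T' : ℕ × ℕ × ℕ} (h1 : (ww T).1 = (ww T').1) (h2 : (ww T).2.1 = (ww T').2.1) :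
    T.1 = T'.1 ∧ T.2.1 = T'.2.1 := by
  have hM := S29.MM_pos
  constructor
  · have h3 : MM * (T.1 : ℤ) = MM * (T'.1 : ℤ) := by
      rw [S29.w1, S29.w1] at h1
      linarith
    exact_mod_cast mul_left_cancel₀ hM.ne' h3
  · have h3 : MM * (T.2.1 : ℤ) = MM * (T'.2.1 : ℤ) := by
      rw [S29.w2, S29.w2] at h2
      linarith
    exact_mod_cast mul_left_cancel₀ hM.ne' h3

/-- `z²` -/
noncomputable def S29.zz (c : ℕ) : ℤ := (5 + MM * (c : ℤ)) ^ 2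

theorem S29.zz_inj {c c' : ℕ} (h : S29.zz c = S29.zz c') : c = c' := by
  have hM := S29.MM_pos
  have h0 : ∀ c : ℕ, 0 ≤ 5 + MM * (c : ℤ) := fun c => by
    have := mul_nonneg hM.le (Int.natCast_nonneg c)
    linarith
  have h1 : 5 + MM * (c : ℤ) = 5 + MM * (c' : ℤ) :=
    (pow_left_inj₀ (h0 c) (h0 c') (by norm_num)).1 h
  have h3 : MM * (c : ℤ) = MM * (c' : ℤ) := by linarith
  exact_mod_cast mul_left_cancel₀ hM.ne' h3

open Classical in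
theorem S29.offdiag (hCURVE : ST_CURVE) (hINJ : ST_INJ) (a b a' b' : ℕ)
    (hne : (a, b) ≠ (a', b')) (R : Finset ℕ) :
    ((R ×ˢ R).filter (fun y : ℕ × ℕ =>
      fI (ww (a, b, 0)).1 (ww (a, b, 0)).2.1 (S29.zz y.1) =
        fI (ww (a', b', 0)).1 (ww (a', b', 0)).2.1 (S29.zz y.2) ∧
      fJ (ww (a, b, 0)).1 (ww (a, b, 0)).2.1 (S29.zz y.1) =
        fJ (ww (a', b', 0)).1 (ww (a', b', 0)).2.1 (S29.zz y.2))).card ≤ 100 := by
  by_contra hcon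
  push Not at hcon
  set Y := ((R ×ˢ R).filter (fun y : ℕ × ℕ =>
      fI (ww (a, b, 0)).1 (ww (a, b, 0)).2.1 (S29.zz y.1) =
        fI (ww (a', b', 0)).1 (ww (a', b', 0)).2.1 (S29.zz y.2) ∧
      fJ (ww (a, b, 0)).1 (ww (a, b, 0)).2.1 (S29.zz y.1) =
        fJ (ww (a', b', 0)).1 (ww (a', b', 0)).2.1 (S29.zz y.2))) with hY
  set S : Finset (ℚ × ℚ) := Y.image (fun y => ((S29.zz y.1 : ℚ), (S29.zz y.2 : ℚ))) with hS
  have hcard : S.card = Y.card := by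
    apply Finset.card_image_of_injective
    intro y y' h
    obtain ⟨h1, h2⟩ := Prod.mk.inj h
    exact Prod.ext (S29.zz_inj (by exact_mod_cast h1)) (S29.zz_inj (by exact_mod_cast h2))
  obtain ⟨β, hf, -, p, hp, hpβ⟩ := hCURVE
    (S29.F (((ww (a, b, 0)).1 : ℤ) : ℚ) (((ww (a, b, 0)).2.1 : ℤ) : ℚ))
    (S29.F (((ww (a', b', 0)).1 : ℤ) : ℚ) (((ww (a', b', 0)).2.1 : ℤ) : ℚ))
    (S29.G (((ww (a, b, 0)).1 : ℤ) : ℚ) (((ww (a, b, 0)).2.1 : ℤ) : ℚ))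
    (S29.G (((ww (a', b', 0)).1 : ℤ) : ℚ) (((ww (a', b', 0)).2.1 : ℤ) : ℚ))
    (S29.deg_F _ _) (S29.deg_F _ _) (S29.deg_G _ _ (S29.e2_ne _)) (S29.deg_G _ _ (S29.e2_ne _))
    (by rw [S29.lc_F, S29.lc_F]) S (by
      intro p hp
      obtain ⟨y, hy, rfl⟩ := Finset.mem_image.1 hp
      obtain ⟨h1, h2⟩ := (Finset.mem_filter.1 hy).2
      constructor
      · rw [S29.eval_F, S29.eval_F, ← S29.cast_fI, ← S29.cast_fI, h1]
      · rw [S29.eval_G, S29.eval_G, ← S29.cast_fJ, ← S29.cast_fJ, h2]) (by rw [hcard]; exact hcon.le)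
  obtain ⟨y, hy, rfl⟩ := Finset.mem_image.1 hp
  have hβ : β = ((S29.zz y.2 - S29.zz y.1 : ℤ) : ℚ) := by
    push_cast
    have : (S29.zz y.2 : ℚ) = (S29.zz y.1 : ℚ) + β := hpβ
    linarith
  have h11 : (11 : ℤ) ∣ S29.zz y.2 - S29.zz y.1 := by
    have h : S29.zz y.2 - S29.zz y.1 = MM * (((y.2 : ℤ) - y.1) * (10 + MM * y.2 + MM * y.1)) := by
      unfold S29.zz
      ring
    rw [h]
    exact Dvd.dvd.mul_right (S29.dvd_MM 11 (by norm_num) (by norm_num)) _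
  have hkey : ∀ τ : ℤ, fI (ww (a', b', 0)).1 (ww (a', b', 0)).2.1 (τ + (S29.zz y.2 - S29.zz y.1)) =
      fI (ww (a, b, 0)).1 (ww (a, b, 0)).2.1 τ := by
    intro τ
    have h := congrArg (fun P : ℚ[X] => P.eval (τ : ℚ)) hf
    simp only [eval_comp, eval_add, eval_X, eval_C, S29.eval_F] at h
    have h' : ((fI (ww (a', b', 0)).1 (ww (a', b', 0)).2.1 (τ + (S29.zz y.2 - S29.zz y.1)) : ℤ) : ℚ) =
        ((fI (ww (a, b, 0)).1 (ww (a, b, 0)).2.1 τ : ℤ) : ℚ) := by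
      rw [S29.cast_fI, S29.cast_fI, Int.cast_add, ← hβ]
      exact h
    exact Int.cast_injective h'
  obtain ⟨h1, h2⟩ := hINJ (ww (a, b, 0)) (ww (a', b', 0)) (S29.cong _) (S29.cong _) _ h11 hkey
  obtain ⟨h3, h4⟩ := S29.ww_inj h1 h2
  exact hne (Prod.ext h3 h4)

open Classical in
theorem S29.diag (a b : ℕ) (R : Finset ℕ) :
    ((R ×ˢ R).filter (fun y : ℕ × ℕ =>
      fI (ww (a, b, 0)).1 (ww (a, b, 0)).2.1 (S29.zz y.1) =
        fI (ww (a, b, 0)).1 (ww (a, b, 0)).2.1 (S29.zz y.2))).card ≤ 3 * R.card := by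
  set Y := ((R ×ˢ R).filter (fun y : ℕ × ℕ =>
      fI (ww (a, b, 0)).1 (ww (a, b, 0)).2.1 (S29.zz y.1) =
        fI (ww (a, b, 0)).1 (ww (a, b, 0)).2.1 (S29.zz y.2))) with hY
  have h1 : Y.card ≤ 3 * (Y.image Prod.fst).card := by
    refine Finset.card_le_mul_card_image Y 3 ?_
    intro c _
    set P : ℚ[X] := S29.F (((ww (a, b, 0)).1 : ℤ) : ℚ) (((ww (a, b, 0)).2.1 : ℤ) : ℚ) with hP
    set v : ℚ := ((fI (ww (a, b, 0)).1 (ww (a, b, 0)).2.1 (S29.zz c) : ℤ) : ℚ) with hv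
    set Q : ℚ[X] := P - C v with hQ
    have hd : Q.natDegree = 3 := by rw [hQ, natDegree_sub_C, hP, S29.deg_F]
    have hQ0 : Q ≠ 0 := by
      intro h
      rw [h] at hd
      simp at hd
    have h2 : (Y.filter (fun x => x.1 = c)).card ≤ Q.roots.toFinset.card := by
      refine Finset.card_le_card_of_injOn (fun y : ℕ × ℕ => (S29.zz y.2 : ℚ)) ?_ ?_
      · intro y hy
        obtain ⟨hyY, hyc⟩ := Finset.mem_filter.1 hy
        have h3 := (Finset.mem_filter.1 hyY).2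
        simp only [Finset.mem_coe, Multiset.mem_toFinset]
        rw [mem_roots hQ0, IsRoot, hQ, eval_sub, eval_C, hP, S29.eval_F, ← S29.cast_fI, ← h3, hyc,
          hv, sub_self]
      · intro y hy y' hy' h
        have e1 := (Finset.mem_filter.1 hy).2
        have e2 := (Finset.mem_filter.1 hy').2
        have h' : ((S29.zz y.2 : ℤ) : ℚ) = ((S29.zz y'.2 : ℤ) : ℚ) := h
        exact Prod.ext (e1.trans e2.symm) (S29.zz_inj (by exact_mod_cast h'))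
    exact h2.trans ((Multiset.toFinset_card_le _).trans ((card_roots' Q).trans hd.le))
  refine h1.trans (Nat.mul_le_mul_left _ ?_)
  apply Finset.card_le_card
  intro c hc
  obtain ⟨y, hy, rfl⟩ := Finset.mem_image.1 hc
  exact (Finset.mem_product.1 (Finset.mem_filter.1 hy).1).1

open Classical in
/-- row PAIR -/
theorem st_PAIR (hREL : ST_REL) (hCURVE : ST_CURVE) (hINJ : ST_INJ) : ST_PAIR := by
  intro m hm
  set F := (Box m ×ˢ Box m).filter (fun p => cA (ww p.1) = cA (ww p.2) ∧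
    cB (ww p.1) = cB (ww p.2)) with hF
  -- the members of `F`
  have hmem : ∀ p ∈ F, p.1.1 < m ∧ p.1.2.1 < m ∧ p.1.2.2 < m ^ 2 ∧ p.2.1 < m ∧ p.2.2.1 < m ∧
      p.2.2.2 < m ^ 2 := by
    intro p hp
    have h := (Finset.mem_filter.1 hp).1
    simp only [Box, Finset.mem_product, Finset.mem_range] at h
    exact ⟨h.1.1, h.1.2.1, h.1.2.2, h.2.1, h.2.2.1, h.2.2.2⟩
  have hIJ : ∀ p ∈ F,
      fI (ww (p.1.1, p.1.2.1, 0)).1 (ww (p.1.1, p.1.2.1, 0)).2.1 (S29.zz p.1.2.2) =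
        fI (ww (p.2.1, p.2.2.1, 0)).1 (ww (p.2.1, p.2.2.1, 0)).2.1 (S29.zz p.2.2.2) ∧
      fJ (ww (p.1.1, p.1.2.1, 0)).1 (ww (p.1.1, p.1.2.1, 0)).2.1 (S29.zz p.1.2.2) =
        fJ (ww (p.2.1, p.2.2.1, 0)).1 (ww (p.2.1, p.2.2.1, 0)).2.1 (S29.zz p.2.2.2) := by
    intro p hp
    obtain ⟨h1, h2⟩ := (Finset.mem_filter.1 hp).2
    obtain ⟨r1, r2, -⟩ := hREL (ww p.1) (S29.cong _)
    obtain ⟨r3, r4, -⟩ := hREL (ww p.2) (S29.cong _)
    rw [h1] at r1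
    rw [h2] at r2
    have e1 : ∀ T : ℕ × ℕ × ℕ, (ww (T.1, T.2.1, 0)).1 = (ww T).1 := fun T => by
      rw [S29.w1, S29.w1]
    have e2 : ∀ T : ℕ × ℕ × ℕ, (ww (T.1, T.2.1, 0)).2.1 = (ww T).2.1 := fun T => by
      rw [S29.w2, S29.w2]
    have e3 : ∀ T : ℕ × ℕ × ℕ, S29.zz T.2.2 = (ww T).2.2 ^ 2 := fun T => by
      rw [S29.w3, S29.zz]
    rw [e1, e1, e2, e2, e3, e3]
    constructor
    · linarith
    · linarith
  set K : Finset ((ℕ × ℕ) × (ℕ × ℕ)) :=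
    (Finset.range m ×ˢ Finset.range m) ×ˢ (Finset.range m ×ˢ Finset.range m) with hK
  set key : (ℕ × ℕ × ℕ) × (ℕ × ℕ × ℕ) → (ℕ × ℕ) × (ℕ × ℕ) :=
    fun p => ((p.1.1, p.1.2.1), (p.2.1, p.2.2.1)) with hkey
  have hmap : ∀ p ∈ F, key p ∈ K := by
    intro p hp
    obtain ⟨h1, h2, -, h4, h5, -⟩ := hmem p hp
    simp only [hK, hkey, Finset.mem_product, Finset.mem_range]
    exact ⟨⟨h1, h2⟩, ⟨h4, h5⟩⟩
  rw [Finset.card_eq_sum_card_fiberwise hmap]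
  have hfib : ∀ x ∈ K, (F.filter (fun p => key p = x)).card ≤
      100 + (if x.1 = x.2 then 3 * m ^ 2 else 0) := by
    intro x _
    have hinj' : Set.InjOn (fun p : (ℕ × ℕ × ℕ) × (ℕ × ℕ × ℕ) => (p.1.2.2, p.2.2.2))
        (F.filter (fun p => key p = x) : Set _) := by
      intro p hp p' hp' h
      have h1 := (Finset.mem_filter.1 hp).2
      have h2 := (Finset.mem_filter.1 hp').2
      have h3 := h1.trans h2.symm
      obtain ⟨⟨p1, p2, p3⟩, ⟨p4, p5, p6⟩⟩ := p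
      obtain ⟨⟨q1, q2, q3⟩, ⟨q4, q5, q6⟩⟩ := p'
      simp only [hkey, Prod.mk.injEq] at h h3 ⊢
      exact ⟨⟨h3.1.1, h3.1.2, h.1⟩, ⟨h3.2.1, h3.2.2, h.2⟩⟩
    by_cases hx : x.1 = x.2
    · rw [if_pos hx]
      refine le_trans ?_ (Nat.le_add_left _ _)
      have h0 := S29.diag x.1.1 x.1.2 (Finset.range (m ^ 2))
      rw [Finset.card_range] at h0
      refine le_trans (Finset.card_le_card_of_injOn _ ?_ hinj') h0
      intro p hp
      obtain ⟨hpF, hpx⟩ := Finset.mem_filter.1 hp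
      obtain ⟨-, -, m1, -, -, m2⟩ := hmem p hpF
      obtain ⟨g1, -⟩ := hIJ p hpF
      have e1 : (p.1.1, p.1.2.1) = x.1 := congrArg Prod.fst hpx
      have e2 : (p.2.1, p.2.2.1) = x.1 := (congrArg Prod.snd hpx).trans hx.symm
      have a1 : p.1.1 = x.1.1 := congrArg Prod.fst e1
      have a2 : p.1.2.1 = x.1.2 := congrArg Prod.snd e1
      have a3 : p.2.1 = x.1.1 := congrArg Prod.fst e2
      have a4 : p.2.2.1 = x.1.2 := congrArg Prod.snd e2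
      rw [a1, a2, a3, a4] at g1
      refine Finset.mem_coe.2 (Finset.mem_filter.2 ⟨Finset.mem_product.2
        ⟨Finset.mem_range.2 m1, Finset.mem_range.2 m2⟩, ?_⟩)
      exact g1
    · rw [if_neg hx, add_zero]
      have h0 := S29.offdiag hCURVE hINJ x.1.1 x.1.2 x.2.1 x.2.2 hx (Finset.range (m ^ 2))
      refine le_trans (Finset.card_le_card_of_injOn _ ?_ hinj') h0
      intro p hp
      obtain ⟨hpF, hpx⟩ := Finset.mem_filter.1 hp
      obtain ⟨-, -, m1, -, -, m2⟩ := hmem p hpF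
      have g := hIJ p hpF
      have e1 : (p.1.1, p.1.2.1) = x.1 := congrArg Prod.fst hpx
      have e2 : (p.2.1, p.2.2.1) = x.2 := congrArg Prod.snd hpx
      have a1 : p.1.1 = x.1.1 := congrArg Prod.fst e1
      have a2 : p.1.2.1 = x.1.2 := congrArg Prod.snd e1
      have a3 : p.2.1 = x.2.1 := congrArg Prod.fst e2
      have a4 : p.2.2.1 = x.2.2 := congrArg Prod.snd e2
      rw [a1, a2, a3, a4] at g
      exact Finset.mem_coe.2 (Finset.mem_filter.2 ⟨Finset.mem_product.2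
        ⟨Finset.mem_range.2 m1, Finset.mem_range.2 m2⟩, g⟩)
  refine (Finset.sum_le_sum hfib).trans ?_
  rw [Finset.sum_add_distrib, Finset.sum_const, smul_eq_mul]
  have hKc : K.card = m ^ 4 := by
    simp only [hK, Finset.card_product, Finset.card_range]
    ring
  have hdiag : ∑ x ∈ K, (if x.1 = x.2 then 3 * m ^ 2 else 0) ≤ 3 * m ^ 4 := by
    rw [← Finset.sum_filter, Finset.sum_const, smul_eq_mul]
    have : (K.filter (fun x => x.1 = x.2)).card ≤ m ^ 2 := by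
      have h1 : (K.filter (fun x => x.1 = x.2)).card ≤
          (Finset.range m ×ˢ Finset.range m).card := by
        refine Finset.card_le_card_of_injOn Prod.fst ?_ ?_
        · intro x hx
          exact (Finset.mem_product.1 (Finset.mem_filter.1 hx).1).1
        · intro x hx x' hx' h
          have e1 := (Finset.mem_filter.1 hx).2
          have e2 := (Finset.mem_filter.1 hx').2
          exact Prod.ext h (e1.symm.trans (h.trans e2))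
      refine h1.trans (le_of_eq ?_)
      simp only [Finset.card_product, Finset.card_range]
      ring
    calc (K.filter (fun x => x.1 = x.2)).card * (3 * m ^ 2) ≤ m ^ 2 * (3 * m ^ 2) :=
          Nat.mul_le_mul_right _ this
      _ = 3 * m ^ 4 := by ring
  rw [hKc]
  omega

end Pool.Helper70.RT
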