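import Mathlib

/-! Two rational curves `t ↦ (f t, g t)`, `t ↦ (f' t, g' t)` of degrees `(3, 4)` with many common
points differ by a translation (as row CURVE of project R8, degrees `(3, 5)`). -/

set_option autoImplicit false

namespace Pool.Agent.Helper29.RT.Curve

open Polynomial Finset

/-- the combination `n₀ + n₁ f + n₂ g + n₃ f² + n₄ f g` -/
noncomputable def cN (n : Fin 5 → ℚ) (f g : ℚ[X]) : ℚ[X] :=
  C (n 0) + C (n 1) * f + C (n 2) * g + C (n 3) * f ^ 2 + C (n 4) * (f * g)

theorem cN_natDegree (n : Fin 5 → ℚ) (f g : ℚ[X]) (hf : f.natDegree = 3) (hg : g.natDegree = 4) :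
    (cN n f g).natDegree ≤ 7 := by
  have h2 : (f ^ 2).natDegree ≤ 6 := by
    refine (natDegree_pow_le).trans ?_; omega
  have h4 : (f * g).natDegree ≤ 7 := by
    refine (natDegree_mul_le).trans ?_; omega
  unfold cN
  refine natDegree_add_le_of_degree_le
    (natDegree_add_le_of_degree_le (natDegree_add_le_of_degree_le (natDegree_add_le_of_degree_le
      ?_ ?_) ?_) ?_) ?_
  · rw [natDegree_C]; omega
  · refine (natDegree_C_mul_le _ _).trans ?_; omega
  · refine (natDegree_C_mul_le _ _).trans ?_; omega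
  · refine (natDegree_C_mul_le _ _).trans ?_; omega
  · refine (natDegree_C_mul_le _ _).trans ?_; omega

theorem cN_natDegree' (n : Fin 5 → ℚ) (h5 : n 4 = 0) (f g : ℚ[X]) (hf : f.natDegree = 3)
    (hg : g.natDegree = 4) : (cN n f g).natDegree ≤ 6 := by
  have h2 : (f ^ 2).natDegree ≤ 6 := by
    refine (natDegree_pow_le).trans ?_; omega
  unfold cN
  rw [h5, C_0, zero_mul, add_zero]
  refine natDegree_add_le_of_degree_le (natDegree_add_le_of_degree_le (natDegree_add_le_of_degree_le
      ?_ ?_) ?_) ?_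
  · rw [natDegree_C]; omega
  · refine (natDegree_C_mul_le _ _).trans ?_; omega
  · refine (natDegree_C_mul_le _ _).trans ?_; omega
  · refine (natDegree_C_mul_le _ _).trans ?_; omega

/-- the degrees `0, 3, 4, 6, 7` are distinct -/
theorem cN_eq_zero (n : Fin 5 → ℚ) (f g : ℚ[X]) (hf : f.natDegree = 3) (hg : g.natDegree = 4)
    (h : cN n f g = 0) : n = 0 := by
  have lf : f.leadingCoeff ≠ 0 := leadingCoeff_ne_zero.2 (by rintro rfl; simp at hf)
  have lg : g.leadingCoeff ≠ 0 := leadingCoeff_ne_zero.2 (by rintro rfl; simp at hg)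
  have h2 : (f ^ 2).natDegree ≤ 6 := by
    refine (natDegree_pow_le).trans ?_; omega
  have hc : ∀ k, (cN n f g).coeff k = 0 := by intro k; rw [h, coeff_zero]
  have e2 : (f ^ 2).coeff 6 = f.leadingCoeff ^ 2 := by
    have := coeff_pow_mul_natDegree f 2
    rwa [hf] at this
  have e4 : (f * g).coeff 7 = f.leadingCoeff * g.leadingCoeff := by
    have := coeff_mul_degree_add_degree f g
    rwa [hf, hg] at this
  have e1 : f.coeff 3 = f.leadingCoeff := by rw [leadingCoeff, hf]
  have e5 : g.coeff 4 = g.leadingCoeff := by rw [leadingCoeff, hg]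
  have z1 : ∀ k, 3 < k → f.coeff k = 0 := fun k hk => coeff_eq_zero_of_natDegree_lt (by omega)
  have z2 : ∀ k, 4 < k → g.coeff k = 0 := fun k hk => coeff_eq_zero_of_natDegree_lt (by omega)
  have z3 : ∀ k, 6 < k → (f ^ 2).coeff k = 0 := fun k hk => coeff_eq_zero_of_natDegree_lt (by omega)
  have n4 : n 4 = 0 := by
    have h9 := hc 7
    simp only [cN, coeff_add, coeff_C_mul, e4, z1 7 (by norm_num), z2 7 (by norm_num),
      z3 7 (by norm_num), coeff_C, mul_zero, add_zero, zero_add] at h9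
    simpa [lf, lg] using h9
  have n3 : n 3 = 0 := by
    have h9 := hc 6
    simp only [cN, coeff_add, coeff_C_mul, e2, z1 6 (by norm_num), z2 6 (by norm_num), n4,
      C_0, zero_mul, coeff_C, mul_zero, add_zero, zero_add, coeff_zero] at h9
    simpa [lf, lg] using h9
  have n2 : n 2 = 0 := by
    have h9 := hc 4
    simp only [cN, coeff_add, coeff_C_mul, e5, z1 4 (by norm_num), n3, n4,
      C_0, zero_mul, coeff_C, mul_zero, add_zero, zero_add, coeff_zero] at h9
    simpa [lf, lg] using h9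
  have n1 : n 1 = 0 := by
    have h9 := hc 3
    simp only [cN, coeff_add, coeff_C_mul, e1, n2, n3, n4,
      C_0, zero_mul, coeff_C, mul_zero, add_zero, zero_add, coeff_zero] at h9
    simpa [lf, lg] using h9
  have n0 : n 0 = 0 := by
    have h9 := hc 0
    simp only [cN, coeff_add, n1, n2, n3, n4,
      C_0, zero_mul, coeff_C, mul_zero, add_zero, zero_add, coeff_zero] at h9
    simpa using h9
  funext i
  fin_cases i
  · exact n0
  · exact n1
  · exact n2
  · exact n3
  · exact n4

/-- the dimension count: `X D' = N'` -/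
theorem exists_rel (f g : ℚ[X]) (hf : f.natDegree = 3) (hg : g.natDegree = 4) :
    ∃ d n : Fin 5 → ℚ, d 4 = 0 ∧ d ≠ 0 ∧ X * cN d f g = cN n f g := by
  -- the linear map `(c : Fin 9 → ℚ) ↦` the eight coefficients of `X D - N`
  let dd : (Fin 9 → ℚ) → Fin 5 → ℚ := fun c => ![c 0, c 1, c 2, c 3, 0]
  let nn : (Fin 9 → ℚ) → Fin 5 → ℚ := fun c => ![c 4, c 5, c 6, c 7, c 8]
  let W : (Fin 9 → ℚ) → ℚ[X] := fun c => X * cN (dd c) f g - cN (nn c) f g
  have hWadd : ∀ c c', W (c + c') = W c + W c' := by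
    intro c c'
    simp only [W, dd, nn, cN, Pi.add_apply]
    simp only [Matrix.cons_val, map_add, C_0]
    ring
  have hWsmul : ∀ (a : ℚ) c, W (a • c) = C a * W c := by
    intro a c
    simp only [W, dd, nn, cN, Pi.smul_apply, smul_eq_mul]
    simp only [Matrix.cons_val, map_mul, C_0]
    ring
  let L : (Fin 9 → ℚ) →ₗ[ℚ] (Fin 8 → ℚ) :=
    { toFun := fun c k => (W c).coeff (k : ℕ)
      map_add' := by
        intro c c'
        funext k
        rw [hWadd, coeff_add]
        rfl
      map_smul' := by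
        intro a c
        funext k
        rw [hWsmul, coeff_C_mul]
        rfl }
  have hker : LinearMap.ker L ≠ ⊥ := by
    apply LinearMap.ker_ne_bot_of_finrank_lt
    rw [Module.finrank_fin_fun, Module.finrank_fin_fun]
    norm_num
  obtain ⟨c, hc, hc0⟩ := (Submodule.ne_bot_iff _).1 hker
  have hWdeg : (W c).natDegree ≤ 7 := by
    refine (natDegree_sub_le _ _).trans (max_le ?_ (cN_natDegree _ f g hf hg))
    refine (natDegree_mul_le).trans ?_
    have := cN_natDegree' (dd c) (by simp [dd]) f g hf hg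
    rw [natDegree_X]
    omega
  have hW0 : W c = 0 := by
    ext k
    rw [coeff_zero]
    rcases Nat.lt_or_ge k 8 with hk | hk
    · have := congrFun (LinearMap.mem_ker.1 hc) ⟨k, hk⟩
      exact this
    · exact coeff_eq_zero_of_natDegree_lt (by omega)
  refine ⟨dd c, nn c, by simp [dd], ?_, sub_eq_zero.1 hW0⟩
  intro hd
  have h1 : cN (nn c) f g = 0 := by
    have h2 : X * cN (dd c) f g - cN (nn c) f g = 0 := hW0
    have h4 : cN 0 f g = 0 := by simp [cN]
    rw [hd, h4, mul_zero, zero_sub, neg_eq_zero] at h2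
    exact h2
  have h3 := cN_eq_zero _ f g hf hg h1
  apply hc0
  funext i
  have hd' := fun j => congrFun hd j
  have hn' := fun j => congrFun h3 j
  fin_cases i
  · exact hd' 0
  · exact hd' 1
  · exact hd' 2
  · exact hd' 3
  · exact hn' 0
  · exact hn' 1
  · exact hn' 2
  · exact hn' 3
  · exact hn' 4

/-- the homogenised identity -/
theorem hom_key (h h' : ℚ[X]) (k : ℕ) (hd : h.natDegree ≤ k) (hd' : h'.natDegree ≤ k)
    (N D : ℚ[X]) (hN : N.natDegree ≤ 7) (hD : D.natDegree ≤ 6) (T : Finset ℚ)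
    (hT : 7 * k < T.card)
    (hpt : ∀ t ∈ T, ∃ t' : ℚ, t' * D.eval t = N.eval t ∧ h.eval t = h'.eval t') :
    ∑ i ∈ range (k + 1), C (h'.coeff i) * N ^ i * D ^ (k - i) = h * D ^ k := by
  rw [← sub_eq_zero]
  apply eq_zero_of_natDegree_lt_card_of_eval_eq_zero' _ T
  · intro t ht
    obtain ⟨t', h1, h2⟩ := hpt t ht
    rw [eval_sub, eval_finsetSum, eval_mul, eval_pow, h2,
      eval_eq_sum_range' (Nat.lt_succ_of_le hd') t', sum_mul, sub_eq_zero]
    apply sum_congr rfl
    intro i hi
    have hik : i ≤ k := Nat.lt_succ_iff.1 (mem_range.1 hi)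
    rw [eval_mul, eval_mul, eval_C, eval_pow, eval_pow, ← h1, mul_pow, mul_assoc, mul_assoc,
      mul_assoc, ← pow_add, Nat.add_sub_cancel' hik]
  · refine lt_of_le_of_lt ((natDegree_sub_le _ _).trans (max_le ?_ ?_)) hT
    · apply natDegree_sum_le_of_forall_le
      intro i hi
      have hik : i ≤ k := Nat.lt_succ_iff.1 (mem_range.1 hi)
      refine natDegree_mul_le.trans ?_
      have h1 : (C (h'.coeff i) * N ^ i).natDegree ≤ i * 7 :=
        (natDegree_C_mul_le _ _).trans (natDegree_pow_le.trans (Nat.mul_le_mul_left _ hN))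
      have h2 : (D ^ (k - i)).natDegree ≤ (k - i) * 6 :=
        natDegree_pow_le.trans (Nat.mul_le_mul_left _ hD)
      omega
    · refine natDegree_mul_le.trans ?_
      have h2 : (D ^ k).natDegree ≤ k * 6 := natDegree_pow_le.trans (Nat.mul_le_mul_left _ hD)
      omega

/-- the divisibility from the homogenised identity of degree three -/
theorem dvd_of_hom (f f' N D : ℚ[X]) (hf' : f'.natDegree = 3) (hD : D ≠ 0)
    (h : ∑ i ∈ range (3 + 1), C (f'.coeff i) * N ^ i * D ^ (3 - i) = f * D ^ 3) : D ∣ N := by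
  classical
  have l3 : f'.coeff 3 ≠ 0 := by
    have : f'.leadingCoeff ≠ 0 := leadingCoeff_ne_zero.2 (by rintro rfl; simp at hf')
    rwa [leadingCoeff, hf'] at this
  obtain ⟨G, N1, D1, hG, hN1, hD1, hco⟩ : ∃ G N1 D1 : ℚ[X], G ≠ 0 ∧ N = G * N1 ∧ D = G * D1 ∧
      IsCoprime N1 D1 := by
    letI := EuclideanDomain.gcdMonoid ℚ[X]
    have hg0 : GCDMonoid.gcd N D ≠ 0 := gcd_ne_zero_of_right hD
    exact ⟨GCDMonoid.gcd N D, N / GCDMonoid.gcd N D, D / GCDMonoid.gcd N D, hg0,
      (EuclideanDomain.mul_div_cancel' hg0 (GCDMonoid.gcd_dvd_left N D)).symm,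
      (EuclideanDomain.mul_div_cancel' hg0 (GCDMonoid.gcd_dvd_right N D)).symm,
      isCoprime_div_gcd_div_gcd hD⟩
  subst hN1 hD1
  have h2 : G ^ 3 * (C (f'.coeff 0) * D1 ^ 3 + C (f'.coeff 1) * N1 * D1 ^ 2 +
      C (f'.coeff 2) * N1 ^ 2 * D1 + C (f'.coeff 3) * N1 ^ 3) = G ^ 3 * (f * D1 ^ 3) := by
    simp only [sum_range_succ, sum_range_zero] at h
    norm_num at h
    linear_combination h
  have h3 := mul_left_cancel₀ (pow_ne_zero 3 hG) h2
  have h4 : D1 ∣ C (f'.coeff 3) * N1 ^ 3 := by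
    refine ⟨f * D1 ^ 2 - (C (f'.coeff 0) * D1 ^ 2 + C (f'.coeff 1) * N1 * D1 +
      C (f'.coeff 2) * N1 ^ 2), ?_⟩
    linear_combination h3
  have h5 : D1 ∣ C (f'.coeff 3) := (hco.symm.pow_right).dvd_of_dvd_mul_right h4
  have h6 : IsUnit D1 := isUnit_of_dvd_unit h5 (isUnit_C.2 (isUnit_iff_ne_zero.2 l3))
  exact mul_dvd_mul_left G (h6.dvd)

theorem rat_pow_three {a : ℚ} (h : a ^ 3 = 1) : a = 1 := by
  have : a ^ 3 = 1 ^ 3 := by rw [h, one_pow]
  exact (Odd.strictMono_pow (by decide : Odd 3)).injective this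

/-- two curves of degrees `(3, 4)`, the leading coefficients of the cubics being equal, with at least
`100` common points differ by a translation -/
theorem curve34 (f f' g g' : ℚ[X]) (hf : f.natDegree = 3) (hf' : f'.natDegree = 3)
    (hg : g.natDegree = 4) (hg' : g'.natDegree = 4) (hl : f.leadingCoeff = f'.leadingCoeff)
    (S : Finset (ℚ × ℚ)) (hS : ∀ p ∈ S, f.eval p.1 = f'.eval p.2 ∧ g.eval p.1 = g'.eval p.2)
    (hc : 100 ≤ S.card) : ∃ β : ℚ, f'.comp (X + C β) = f ∧ g'.comp (X + C β) = g ∧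
      ∃ p ∈ S, p.2 = p.1 + β := by
  classical
  -- the values of `t`
  have hT : 34 ≤ (S.image Prod.fst).card := by
    have h1 : S.card ≤ 3 * (S.image Prod.fst).card := by
      apply card_le_mul_card_image
      intro b _
      have hpos : 0 < f'.degree := by
        rw [← natDegree_pos_iff_degree_pos, hf']; norm_num
      have h2 : ({a ∈ S | a.1 = b}.image Prod.snd) ⊆ (f' - C (f.eval b)).roots.toFinset := by
        intro t' ht'
        obtain ⟨a, ha, rfl⟩ := mem_image.1 ht'
        obtain ⟨ha, hab⟩ := mem_filter.1 ha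
        rw [Multiset.mem_toFinset, mem_roots_sub_C hpos, ← hab]
        exact (hS a ha).1.symm
      have h3 : ({a ∈ S | a.1 = b}.image Prod.snd).card = ({a ∈ S | a.1 = b}).card := by
        apply card_image_of_injOn
        intro a ha a' ha' h
        have ha1 := (mem_filter.1 ha).2
        have ha2 := (mem_filter.1 ha').2
        exact Prod.ext (ha1.trans ha2.symm) h
      rw [← h3]
      refine (card_le_card h2).trans ((Multiset.toFinset_card_le _).trans ?_)
      have := card_roots_sub_C' (a := f.eval b) hpos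
      omega
    omega
  obtain ⟨d, n, hd5, hd0, hrel⟩ := exists_rel f' g' hf' hg'
  have hD0 : cN d f g ≠ 0 := fun h => hd0 (cN_eq_zero d f g hf hg h)
  have hev : ∀ (c : Fin 5 → ℚ) (p : ℚ × ℚ), p ∈ S →
      (cN c f g).eval p.1 = (cN c f' g').eval p.2 := by
    intro c p hp
    obtain ⟨h1, h2⟩ := hS p hp
    simp only [cN, eval_add, eval_mul, eval_C, eval_pow, h1, h2]
  have hpt : ∀ p ∈ S, p.2 * (cN d f g).eval p.1 = (cN n f g).eval p.1 := by
    intro p hp
    rw [hev d p hp, hev n p hp, ← hrel, eval_mul, eval_X]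
  have hNd := cN_natDegree n f g hf hg
  have hDd := cN_natDegree' d hd5 f g hf hg
  have key3 := hom_key f f' 3 hf.le hf'.le (cN n f g) (cN d f g) hNd hDd (S.image Prod.fst)
    (by omega) (by
      intro t ht
      obtain ⟨p, hp, rfl⟩ := mem_image.1 ht
      exact ⟨p.2, hpt p hp, (hS p hp).1⟩)
  have key5 := hom_key g g' 4 hg.le hg'.le (cN n f g) (cN d f g) hNd hDd (S.image Prod.fst)
    (by omega) (by
      intro t ht
      obtain ⟨p, hp, rfl⟩ := mem_image.1 ht
      exact ⟨p.2, hpt p hp, (hS p hp).2⟩)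
  obtain ⟨ρ, hρ⟩ := dvd_of_hom f f' (cN n f g) (cN d f g) hf' hD0 key3
  have comp_of : ∀ (h h' : ℚ[X]) (k : ℕ), h'.natDegree ≤ k →
      ∑ i ∈ range (k + 1), C (h'.coeff i) * (cN n f g) ^ i * (cN d f g) ^ (k - i) =
        h * (cN d f g) ^ k → h'.comp ρ = h := by
    intro h h' k hk hh
    have h1 : h'.comp ρ * (cN d f g) ^ k = h * (cN d f g) ^ k := by
      rw [← hh, comp, eval₂_eq_sum_range' _ (Nat.lt_succ_of_le hk) ρ, sum_mul]
      apply sum_congr rfl
      intro i hi
      have hik : i ≤ k := Nat.lt_succ_iff.1 (mem_range.1 hi)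
      rw [hρ, mul_pow]
      conv_lhs => rw [← Nat.add_sub_cancel' hik, pow_add]
      ring
    exact mul_right_cancel₀ (pow_ne_zero k hD0) h1
  have cf := comp_of f f' 3 hf'.le key3
  have cg := comp_of g g' 4 hg'.le key5
  have hdeg : ρ.natDegree = 1 := by
    have h1 : (f'.comp ρ).natDegree = f'.natDegree * ρ.natDegree := natDegree_comp
    rw [cf, hf, hf'] at h1
    omega
  have hlc : ρ.leadingCoeff = 1 := by
    have h1 : (f'.comp ρ).leadingCoeff = f'.leadingCoeff * ρ.leadingCoeff ^ f'.natDegree :=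
      leadingCoeff_comp (by rw [hdeg]; norm_num)
    rw [cf, hf', hl] at h1
    have h0 : f'.leadingCoeff ≠ 0 := leadingCoeff_ne_zero.2 (by rintro rfl; simp at hf')
    have h2 : f'.leadingCoeff * ρ.leadingCoeff ^ 3 = f'.leadingCoeff * 1 := by
      rw [mul_one]; exact h1.symm
    exact rat_pow_three (mul_left_cancel₀ h0 h2)
  have hρ' : ρ = X + C (ρ.coeff 0) := by
    have h1 := eq_X_add_C_of_natDegree_le_one hdeg.le
    have h2 : ρ.coeff 1 = 1 := by
      rw [leadingCoeff, hdeg] at hlc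
      exact hlc
    rw [h2, C_1, one_mul] at h1
    exact h1
  refine ⟨ρ.coeff 0, ?_, ?_, ?_⟩
  · rw [← hρ']; exact cf
  · rw [← hρ']; exact cg
  · -- a point with `D ≠ 0`
    by_contra hno
    apply hD0
    apply eq_zero_of_natDegree_lt_card_of_eval_eq_zero' _ (S.image Prod.fst)
    · intro t ht
      obtain ⟨p, hp, rfl⟩ := mem_image.1 ht
      by_contra hne
      apply hno
      refine ⟨p, hp, ?_⟩
      have h1 := hpt p hp
      rw [hρ, eval_mul, mul_comm] at h1
      have h2 := mul_left_cancel₀ hne h1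
      rw [h2]
      conv_lhs => rw [hρ']
      simp
    · omega

end Pool.Agent.Helper29.RT.Curve
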